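import Mathlib

namespace Pool.Agent.Results.MP_5ead0a_co.Small

variable {V : Type} [Fintype V] [DecidableEq V]

/-- dominating set -/
def Dom (G : SimpleGraph V) (S : Finset V) : Prop := ∀ w, w ∉ S → ∃ s ∈ S, G.Adj w s

/-- domination number -/
noncomputable def gamma (G : SimpleGraph V) : ℕ := sInf {k | ∃ S, Dom G S ∧ S.card = k}

def nb : List ℕ := 
  [16394170, 16076405, 15441130, 14105045, 11498155, 6284375, 12503470, 8229725, 6811337,
  13557139, 10337063, 3897166, 7794332, 15523129, 14269298, 11761636, 16698814, 16620413,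
  16463866, 16215797, 15719659, 14662103, 12546991, 8382047]

def G0 : SimpleGraph (Fin 24) where
  Adj a b := (nb.getD a 0).testBit b = true
  symm := ⟨by decide +kernel⟩
  loopless := ⟨by decide +kernel⟩

instance : DecidableRel G0.Adj := fun a b =>
  inferInstanceAs (Decidable ((nb.getD a 0).testBit b = true))

def CN (s w : Fin 24) : Prop := w = s ∨ G0.Adj w s

instance : DecidableRel CN := fun a b => by unfold CN; infer_instance

lemma l1 : ∀ a b : Fin 24, ∃ w, ¬ CN a w ∧ ¬ CN b w := by decide +kernel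

lemma l2 : ∀ u v : Fin 24, u ≠ v → ¬ G0.Adj u v → ∃ x, (∀ w, w = v ∨ CN u w ∨ CN x w) ∨
    ∀ w, w = u ∨ CN v w ∨ CN x w := by decide +kernel

lemma l3 : ∀ a b : Fin 24, ¬ G0.Adj a b → ∀ c, ¬ G0.Adj a c → ¬ G0.Adj b c →
    ∃ w, ¬ CN a w ∧ ¬ CN b w ∧ ¬ CN c w := by decide +kernel

lemma l4 : Dom G0 {0, 1, 2} := by unfold Dom; decide +kernel

lemma dom_cn {S : Finset (Fin 24)} (h : Dom G0 S) (w : Fin 24) : ∃ s ∈ S, CN s w := by
  by_cases hw : w ∈ S
  · exact ⟨w, hw, Or.inl rfl⟩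
  · obtain ⟨s, h1, h2⟩ := h w hw
    exact ⟨s, h1, Or.inr h2⟩

lemma big2 {S : Finset (Fin 24)} (hS : Dom G0 S) : 3 ≤ S.card := by
  by_contra hn
  obtain ⟨T, h1, h2⟩ := Finset.exists_superset_card_eq (s := S) (n := 2) (by omega) (by simp)
  obtain ⟨a, b, -, rfl⟩ := Finset.card_eq_two.mp h2
  obtain ⟨w, h3, h4⟩ := l1 a b
  obtain ⟨s, hs, h5⟩ := dom_cn hS w
  rcases Finset.mem_insert.mp (h1 hs) with rfl | h
  · exact h3 h5
  · exact h4 (Finset.mem_singleton.mp h ▸ h5)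

lemma crit {u v x : Fin 24} {H : SimpleGraph (Fin 24)} (hle : G0 ≤ H) (huv : H.Adj v u)
    (h : ∀ w, w = v ∨ CN u w ∨ CN x w) : gamma H < 3 := by
  refine lt_of_le_of_lt (Nat.sInf_le ⟨{u, x}, fun w hw => ?_, rfl⟩)
    (lt_of_le_of_lt Finset.card_le_two (by norm_num))
  rcases h w with rfl | (rfl | h) | (rfl | h)
  · exact ⟨u, by simp, huv⟩
  · simp at hw
  · exact ⟨u, by simp, hle h⟩
  · simp at hw
  · exact ⟨x, by simp, hle h⟩

theorem result : ∃ (n : ℕ) (G : SimpleGraph (Fin n)), n < 56 ∧ gamma G = 3 ∧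
    (∀ u v, u ≠ v → ¬ G.Adj u v → gamma (G ⊔ SimpleGraph.edge u v) < 3) ∧
    ∀ S : Finset (Fin n), Dom G S → G.IsIndepSet S → 4 ≤ S.card := by
  refine ⟨24, G0, by norm_num, le_antisymm (Nat.sInf_le ⟨_, l4, by decide⟩) ?_, ?_, ?_⟩
  · refine le_csInf ⟨_, _, l4, rfl⟩ ?_
    rintro k ⟨S, hS, rfl⟩
    exact big2 hS
  · intro u v huv hn
    obtain ⟨x, h | h⟩ := l2 u v huv hn
    · exact crit le_sup_left (Or.inr (by simp [SimpleGraph.edge_adj, huv.symm])) h
    · exact crit le_sup_left (Or.inr (by simp [SimpleGraph.edge_adj, huv])) h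
  · intro S hS hI
    by_contra hn
    have := big2 hS
    obtain ⟨a, b, c, h1, h2, h3, rfl⟩ := Finset.card_eq_three.mp (by omega : S.card = 3)
    obtain ⟨w, k1, k2, k3⟩ := l3 a b (hI (by simp) (by simp) h1) c (hI (by simp) (by simp) h2)
      (hI (by simp) (by simp) h3)
    obtain ⟨s, hs, h5⟩ := dom_cn hS w
    simp only [Finset.mem_insert, Finset.mem_singleton] at hs
    rcases hs with rfl | rfl | rfl
    · exact k1 h5
    · exact k2 h5
    · exact k3 h5

end Pool.Agent.Results.MP_5ead0a_co.Small
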